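import Pool.Agent.R80.R3.Fin
import Pool.Agent.R80.R3.Tri
import Pool.Agent.R80.R3.Real

/-!
# Covering the complete 3-graph by `K_4^(3)`-free 3-graphs: reduction to graphs

`f 3 n` is the least number of `K_4^(3)`-free 3-graphs whose union is the complete 3-graph on `n`
vertices and `f 2 N` the least number of triangle-free graphs whose union is `K_N`. We show that
`f 3 n` has the same order of magnitude as `f 2 ⌈log₂ n⌉`: `f 3 n ≤ 2 f 2 ⌈log₂ n⌉` for all `n` and
`f 2 ⌈log₂ n⌉ ≤ 4 f 3 n` for all large `n`. Hence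
`loglog n / (8 logloglog n) ≤ f 3 n ≤ 4 loglog n` for all large `n`.

The upper bound is the stepping-up lemma with `2m` colours. The lower bound combines the
Erdős-Rado argument (which alone loses a square root in the number of vertices) with the product
colouring `f 2 (N²) ≤ 2 f 2 N`, which shows that a power of the number of vertices only costs a
constant factor in the number of triangle-free graphs.

Formalised by helper80, helper95, helper159, helper682 and helper930.
-/

set_option autoImplicit false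

namespace Pool.Agent.Results.MP_fafa1c_co.LogReduction

open Pool.Agent.R80.R3 Filter

/-- `f₃(n) ≤ 2 f₂(⌈log₂ n⌉)` for all `n`; for all large `n` also `f₂(⌈log₂ n⌉) ≤ 4 f₃(n)` and
`loglog n / (8 logloglog n) ≤ f₃(n) ≤ 4 loglog n`. -/
theorem result : (∀ n : ℕ, f 3 n ≤ 2 * f 2 (Nat.clog 2 n)) ∧
    ∃ n₀ : ℕ, ∀ n ≥ n₀, f 2 (Nat.clog 2 n) ≤ 4 * f 3 n ∧
      Real.log (Real.log n) / (8 * Real.log (Real.log (Real.log n))) ≤ f 3 n ∧
      (f 3 n : ℝ) ≤ 4 * Real.log (Real.log n) := by
  refine ⟨upper, ?_⟩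
  obtain ⟨T, hT⟩ : ∃ T : ℕ, T = 24 := ⟨24, rfl⟩
  have hlim : Tendsto (fun n : ℕ => Real.log (Real.log (n : ℝ))) atTop atTop :=
    Real.tendsto_log_atTop.comp (Real.tendsto_log_atTop.comp tendsto_natCast_atTop_atTop)
  obtain ⟨n₁, hn₁⟩ := eventually_atTop.1 (hlim.eventually_ge_atTop 9)
  refine ⟨max n₁ (max 3 (2 ^ (2 ^ T))), fun n hn => ?_⟩
  have hn1 : n₁ ≤ n := (le_max_left _ _).trans hn
  have hn3 : 3 ≤ n := ((le_max_left _ _).trans (le_max_right _ _)).trans hn
  have hn2 : 2 ^ (2 ^ T) ≤ n := ((le_max_right _ _).trans (le_max_right _ _)).trans hn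
  have ht : 24 ≤ Nat.clog 2 (Nat.clog 2 n) := by
    rw [← hT]
    have h1 : 2 ^ T ≤ Nat.clog 2 n := by
      have := Nat.clog_mono_right 2 hn2
      rwa [Nat.clog_pow 2 _ (by norm_num)] at this
    have h2 := Nat.clog_mono_right 2 h1
    rwa [Nat.clog_pow 2 _ (by norm_num)] at h2
  have hX := hn₁ n hn1
  obtain ⟨h2, hm, N, hcol, hN⟩ := core ht
  refine ⟨lower ht, ?_, ?_⟩
  · refine real_part hm h2 hX (hN.trans ?_)
    rw [← pow_mul]
    exact Nat.pow_le_pow_left (by have := Tri.tri _ _ hcol; omega) 4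
  · have h1 : (f 3 n : ℝ) ≤ 2 * (Nat.clog 2 (Nat.clog 2 n) : ℝ) := by
      exact_mod_cast bits_upper hn3
    have h3 := real_up hX
    linarith

end Pool.Agent.Results.MP_fafa1c_co.LogReduction
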